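import Pool.Agent.W2helper75.FD.Stm4

/-!
# Project FD, part 3, piece UP
-/

set_option autoImplicit false

open MeasureTheory ProbabilityTheory Filter Topology
open scoped ENNReal NNReal

namespace Pool.Agent.W2helper91.FD

open Pool.Agent.W2helper75.FD

theorem finiteIndex_map {Γ : Type} [Group Γ] (H : Subgroup Γ) (hH : H.FiniteIndex)
    (K : Subgroup H) (hK : K.FiniteIndex) : (K.map H.subtype).FiniteIndex := by
  constructor
  rw [Subgroup.index_map_subtype]
  exact mul_ne_zero hK.index_ne_zero hH.index_ne_zero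

theorem up : P_UP := by
  intro Γ _ H hH
  refine ⟨?_, ?_⟩
  · rintro ⟨K, f, hK, hf⟩
    let e := K.equivMapOfInjective H.subtype Subtype.coe_injective
    refine ⟨K.map H.subtype, f.comp e.symm.toMonoidHom, finiteIndex_map H hH K hK, ?_⟩
    exact hf.comp e.symm.surjective
  · rintro ⟨K, h, β, μ, t, hK, hC⟩
    classical
    let h' : Γ → ℤ := fun g => if hg : g ∈ H then h ⟨g, hg⟩ else 0
    let β' : Γ → ℂ := fun g => if hg : g ∈ H then β ⟨g, hg⟩ else 0
    have hh : ∀ x : H, h' (x : Γ) = h x := fun x => by simp [h']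
    have hβ : ∀ x : H, β' (x : Γ) = β x := fun x => by simp [β']
    refine ⟨K.map H.subtype, h', β', μ, t, finiteIndex_map H hH K hK, ?_⟩
    constructor
    · exact hC.μ0
    · exact hC.μ1
    · rintro _ ⟨x, hx, rfl⟩ _ ⟨y, hy, rfl⟩
      simp only [Subgroup.coe_subtype]
      rw [← Subgroup.coe_mul, hh, hh, hh]
      exact hC.h_mul x hx y hy
    · rintro _ ⟨x, hx, rfl⟩ _ ⟨y, hy, rfl⟩
      simp only [Subgroup.coe_subtype]
      rw [← Subgroup.coe_mul, hβ, hβ, hβ, hh]
      exact hC.β_mul x hx y hy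
    · exact ⟨t, hC.t_mem, rfl⟩
    · rw [hh]
      exact hC.ht
    · rw [hβ]
      exact hC.βt
    · obtain ⟨m, lam, h1, h2⟩ := hC.fg
      refine ⟨m, lam, ?_, ?_⟩
      · intro i
        obtain ⟨x, hx, hx1, hx2⟩ := h1 i
        exact ⟨x, ⟨x, hx, rfl⟩, by rw [hh]; exact hx1, by rw [hβ]; exact hx2⟩
      · rintro _ ⟨x, hx, rfl⟩ hx0
        simp only [Subgroup.coe_subtype] at hx0 ⊢
        rw [hh] at hx0
        rw [hβ]
        exact h2 x hx hx0
    · obtain ⟨x, hx, hx1, hx2⟩ := hC.ne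
      exact ⟨x, ⟨x, hx, rfl⟩, by rw [hh]; exact hx1, by rw [hβ]; exact hx2⟩

end Pool.Agent.W2helper91.FD
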